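import Pool.Agent.MP_5c28a4_al.H13S.Base

/-!
The structure theorem: induction on the derived length.
-/

set_option autoImplicit false

namespace Pool.Agent.MP_5c28a4_al.H89S.StrA

open scoped commutatorElement

namespace AsmA

theorem adm_of_surj {u : ℕ → FF →₀ ℤ} {G G' : Type} [Group G] [Group G'] (π : G →* G')
    (hπ : Function.Surjective π) (h : Adm u G) : Adm u G' := by
  intro p hp A _ ρ ⟨H, f, hH, h1, h2, h3⟩
  refine sat_of_surj (ρ := (ρ.comp π : Representation ℤ G A)) π hπ (fun _ => rfl)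
    (h p hp A _ ⟨H.comap π, fun x => f (π x), hH.comap π, ?_, ?_, ?_⟩)
  · intro x hx y hy
    simpa only [map_mul] using h1 _ hx _ hy
  · intro a
    obtain ⟨x, hx, rfl⟩ := h2 a
    obtain ⟨y, rfl⟩ := hπ x
    exact ⟨y, hx, rfl⟩
  · intro g x hx
    change f (π (g * x * g⁻¹)) = _
    rw [map_mul, map_mul, map_inv]
    exact h3 (π g) _ hx

variable {N M : Type} [Group N] [AddCommGroup M] {σ : Representation ℤ N M} {f : N → M}
  {H : Subgroup N}

/-- if all words of length `n` in `D` kill the image of `X` then the iterated commutator is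
trivial -/
theorem itc_eq_bot (h : IsSec H ⊥ σ f) (hH : H.Normal) {X D : Subgroup N} (hX : X ≤ H) {n : ℕ}
    (hk : ∀ l : List N, l.length = n → (∀ d ∈ l, d ∈ D) → ∀ x ∈ X, wd σ l (f x) = 0) :
    itc X D n = ⊥ := by
  rw [eq_bot_iff]
  intro x hx
  have h1 : aug σ D (f '' X) n ≤ ⊥ := by
    rw [aug, Submodule.span_le]
    rintro _ ⟨l, hl, hd, _, ⟨y, hy, rfl⟩, rfl⟩
    exact hk l hl hd y hy
  exact (h.ker x (itc_le hH hX D n hx)).1 (h1 (h.itc_aug hH hX D n x hx))

end AsmA

open AsmA in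
theorem asm (bV : BVn) (hS : XSec) (hC : XCom) (hN : XNila) (hL : XLay) : SStr := by
  intro u hu G _ hf hs hA
  obtain ⟨s, hd⟩ := hs.solvable
  induction s generalizing G with
  | zero =>
    have hb : (⊤ : Subgroup G) ≤ ⊥ := hd.le
    exact ⟨⊥, 0, 1, 0, ⟨inferInstance, ⊤, 0, inferInstance, inferInstance, hb⟩,
      ⟨1, one_pos, fun x hx => by rw [pow_one]; exact hx⟩, one_pos, eq_bot_iff.2 (pw_le _ _)⟩
  | succ s ih =>
    set A := derivedSeries G s with hAdef
    have hAn : A.Normal := derivedSeries_normal G s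
    have hAA : ⁅A, A⁆ = ⊥ := hd
    have hsur := QuotientGroup.mk'_surjective A
    have hf' : Group.FG (G ⧸ A) := Group.fg_of_surjective hsur
    have hs' : Group.IsSolvable (G ⧸ A) := inferInstance
    obtain ⟨K₀, c, m, d, hK₀, hb, hm, hl⟩ := ih (G ⧸ A) hf' hs' (adm_of_surj _ hsur hA)
      (by rw [← map_derivedSeries_eq hsur, map_mk_eq_bot])
    obtain ⟨M, _, σ, f, hσ⟩ := hS G A ⊥ hAn inferInstance bot_le hAA.le
    have htriv : ∀ x ∈ A, σ x = 1 := fun x hx => LinearMap.ext fun a => by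
      obtain ⟨y, hy, rfl⟩ := hσ.surj a
      rw [← hσ.conj x y hy, cm_iff.2 hAA x hx y hy, mul_inv_cancel_right]
      rfl
    let τ : Representation ℤ (G ⧸ A) M := QuotientGroup.lift A σ htriv
    have hτ : ∀ g, τ (QuotientGroup.mk' A g) = σ g := fun _ => rfl
    have hwd : ∀ l : List G, wd σ l = wd τ (l.map (QuotientGroup.mk' A)) := fun l => by
      simp only [wd, List.map_map]; rfl
    have hsat : ∀ p : ℕ, p.Prime → Sat (u p) τ := fun p hp =>
      sat_of_surj _ hsur hτ (hA p hp M σ (hσ.sec hAn))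
    obtain ⟨Ka, m₀, t, hKa, hm₀, hk⟩ := hN u hu _ M τ K₀ c m d hf' hs' hsat hK₀ hb hm hl
    obtain ⟨Kb, n, t', hKb, hn, hk'⟩ := hL u hu _ M τ K₀ c m d m₀ hf' hs' hsat hK₀ hb hm hl hm₀
    set K := (K₀ ⊓ Ka ⊓ Kb).comap (QuotientGroup.mk' A) with hKdef
    have hK : CoVN K := bV.comap _ _ _ _ (bV.inf _ _ _ (bV.inf _ _ _ hK₀ hKa) hKb)
    have hmap : K.map (QuotientGroup.mk' A) ≤ K₀ ⊓ Ka ⊓ Kb := Subgroup.map_comap_le _ _
    have hkill : ∀ l : List G, l.length = t → (∀ y ∈ l, y ∈ K) → ∀ a : M,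
        wd σ l (m₀ • a) = 0 := by
      intro l hl hy a
      have := kill_iff.1 hk (l.map (QuotientGroup.mk' A)) (by simpa using hl) (by
        intro y hy'
        obtain ⟨x, hx, rfl⟩ := List.mem_map.1 hy'
        exact (hy x hx).1.2)
      rw [← hwd] at this
      have h2 := LinearMap.congr_fun this a
      rwa [LinearMap.smul_apply, natCast_zsmul, ← map_nsmul] at h2
    obtain ⟨e, he, hb'⟩ := hb
    have hX : ∀ x ∈ K.lowerCentralSeries c, x ^ e ∈ A := by
      intro x hx
      rw [← QuotientGroup.ker_mk' A, MonoidHom.mem_ker, map_pow]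
      apply hb'
      apply lcs_mono (hmap.trans (inf_le_left.trans inf_le_left)) c
      rw [← lcs_map]
      exact ⟨x, hx, rfl⟩
    refine ⟨K, c + t, m * n, d + (t + t'), hK, ?_, Nat.mul_pos hm hn, ?_⟩
    · have hXK : K.lowerCentralSeries c ≤ K := by
        rw [lcs_eq_itc]; exact itc_le hK.1 le_rfl _ _
      have hle : pw (K.lowerCentralSeries c) (e * m₀) ≤
          hσ.pre (LinearMap.range (m₀ • (LinearMap.id : M →ₗ[ℤ] M))) := pw_le_of fun x hx => by
        rw [pow_mul]
        exact ⟨A.pow_mem (hX x hx) _, f (x ^ e), by rw [hσ.pow (hX x hx)]; rfl⟩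
      obtain ⟨k, hk0, hx⟩ := hC.sh G (K.lowerCentralSeries c) K ⊥ (e * m₀) t hs
        (lcs_normal hK.1 c) hK.1 inferInstance hXK (Nat.mul_pos he hm₀)
        (itc_eq_bot hσ hAn (fun x hx => (hle hx).1) fun l hl hy x hx => by
          obtain ⟨a, ha⟩ := (hle hx).2
          rw [← ha]
          exact hkill l hl hy a).le
      rw [lcs_add]
      exact ⟨k, hk0, hx⟩
    · have h1 : (pw K (m * n)).lowerCentralSeries d ≤ A := by
        rw [← map_mk_eq_bot, lcs_map, pw_map, eq_bot_iff, ← hl]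
        exact lcs_mono ((pw_mono (hmap.trans (inf_le_left.trans inf_le_left)) _).trans
          (pw_dvd _ (dvd_mul_right m n))) d
      rw [lcs_add]
      refine itc_eq_bot hσ hAn h1 fun l hl hy x _ => ?_
      obtain ⟨a, ha⟩ := hk' ((l.drop t).map (QuotientGroup.mk' A)) (by simp; omega) (by
        intro y hy'
        obtain ⟨z, hz, rfl⟩ := List.mem_map.1 hy'
        apply (pw_mono (hmap.trans inf_le_right) _).trans (pw_dvd _ (dvd_mul_left n m))
        rw [← pw_map]
        exact ⟨z, hy z (List.mem_of_mem_drop hz), rfl⟩) (f x)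
      rw [← List.take_append_drop t l, wd_append, Module.End.mul_apply, hwd (l.drop t), ha]
      exact hkill _ (by simp; omega) (fun y hy' => pw_le _ _ (hy y (List.mem_of_mem_take hy'))) a

end Pool.Agent.MP_5c28a4_al.H89S.StrA
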