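import Pool.Agent.MP_5c28a4_al.H13S.Spec

/-!
Small lemmas for the structure theorem.
-/

set_option autoImplicit false

namespace Pool.Agent.MP_5c28a4_al.H89S.StrA

open scoped commutatorElement

section Grp

variable {N N' : Type} [Group N] [Group N'] {H H' X X' D D' W : Subgroup N}

theorem pow_mem_pw {x : N} (hx : x ∈ H) (n : ℕ) : x ^ n ∈ pw H n :=
  Subgroup.subset_closure ⟨x, hx, rfl⟩

theorem pw_le_of {n : ℕ} (h : ∀ x ∈ H, x ^ n ∈ W) : pw H n ≤ W := by
  rw [pw, Subgroup.closure_le]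
  rintro _ ⟨x, hx, rfl⟩
  exact h x hx

theorem pw_le (H : Subgroup N) (n : ℕ) : pw H n ≤ H := pw_le_of fun _ hx => H.pow_mem hx n

theorem pw_mono (h : H ≤ H') (n : ℕ) : pw H n ≤ pw H' n :=
  pw_le_of fun _ hx => pow_mem_pw (h hx) n

theorem pw_mul_le (H : Subgroup N) (m n : ℕ) : pw H (m * n) ≤ pw (pw H m) n :=
  pw_le_of fun x hx => by rw [pow_mul]; exact pow_mem_pw (pow_mem_pw hx m) n

theorem pw_dvd (H : Subgroup N) {m n : ℕ} (h : m ∣ n) : pw H n ≤ pw H m := by
  obtain ⟨k, rfl⟩ := h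
  exact (pw_mul_le H m k).trans (pw_le _ _)

theorem pw_normal (h : H.Normal) (n : ℕ) : (pw H n).Normal := by
  refine ⟨fun x hx g => ?_⟩
  induction hx using Subgroup.closure_induction with
  | mem x hx =>
    obtain ⟨y, hy, rfl⟩ := hx
    rw [← conj_pow]
    exact pow_mem_pw (h.conj_mem y hy g) n
  | one => simp
  | mul x y _ _ hx hy =>
    have : g * (x * y) * g⁻¹ = g * x * g⁻¹ * (g * y * g⁻¹) := by group
    rw [this]; exact Subgroup.mul_mem _ hx hy
  | inv x _ hx =>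
    have : g * x⁻¹ * g⁻¹ = (g * x * g⁻¹)⁻¹ := by group
    rw [this]; exact Subgroup.inv_mem _ hx

theorem pw_map (f : N →* N') (H : Subgroup N) (n : ℕ) : (pw H n).map f = pw (H.map f) n := by
  rw [pw, MonoidHom.map_closure, pw]
  congr 1
  ext y
  constructor
  · rintro ⟨_, ⟨x, hx, rfl⟩, rfl⟩
    exact ⟨f x, ⟨x, hx, rfl⟩, map_pow f x n⟩
  · rintro ⟨_, ⟨x, hx, rfl⟩, rfl⟩
    exact ⟨x ^ n, ⟨x, hx, rfl⟩, map_pow f x n⟩

theorem itc_zero (X D : Subgroup N) : itc X D 0 = X := rfl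

theorem itc_succ (X D : Subgroup N) (n : ℕ) : itc X D (n + 1) = ⁅itc X D n, D⁆ := rfl

theorem itc_mono (h : X ≤ X') (h' : D ≤ D') (n : ℕ) : itc X D n ≤ itc X' D' n := by
  induction n with
  | zero => exact h
  | succ n ih => exact Subgroup.commutator_mono ih h'

theorem itc_normal (h : X.Normal) (h' : D.Normal) (n : ℕ) : (itc X D n).Normal := by
  induction n with
  | zero => exact h
  | succ n ih => exact Subgroup.commutator_normal _ _

theorem itc_succ_le (h : X.Normal) (h' : D.Normal) (n : ℕ) : itc X D (n + 1) ≤ itc X D n :=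
  haveI := itc_normal h h' n
  Subgroup.commutator_le_left _ _

/-- a normal subgroup that contains `X` contains all iterated commutators -/
theorem itc_le (h : H.Normal) (hX : X ≤ H) (D : Subgroup N) (n : ℕ) : itc X D n ≤ H := by
  induction n with
  | zero => exact hX
  | succ n ih =>
    exact (Subgroup.commutator_mono ih le_rfl).trans (Subgroup.commutator_le_left _ _)

theorem itc_map (f : N →* N') (X D : Subgroup N) (n : ℕ) :
    (itc X D n).map f = itc (X.map f) (D.map f) n := by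
  induction n with
  | zero => rfl
  | succ n ih => rw [itc_succ, itc_succ, Subgroup.map_commutator, ih]

theorem itc_add (X D : Subgroup N) (a b : ℕ) : itc X D (a + b) = itc (itc X D a) D b := by
  induction b with
  | zero => rfl
  | succ b ih => rw [← add_assoc, itc_succ, ih, itc_succ]

theorem itc_bot (D : Subgroup N) (n : ℕ) : itc ⊥ D n = ⊥ := by
  induction n with
  | zero => rfl
  | succ n ih => rw [itc_succ, ih, Subgroup.commutator_bot_left]

theorem lcs_eq_itc (X : Subgroup N) (n : ℕ) : X.lowerCentralSeries n = itc X X n := by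
  induction n with
  | zero => rfl
  | succ n ih => rw [itc_succ, ← ih]; rfl

theorem lcs_add (X : Subgroup N) (a b : ℕ) :
    X.lowerCentralSeries (a + b) = itc (X.lowerCentralSeries a) X b := by
  rw [lcs_eq_itc, itc_add, ← lcs_eq_itc]

theorem lcs_normal (h : X.Normal) (n : ℕ) : (X.lowerCentralSeries n).Normal := by
  rw [lcs_eq_itc]; exact itc_normal h h n

theorem lcs_mono (h : X ≤ X') (n : ℕ) : X.lowerCentralSeries n ≤ X'.lowerCentralSeries n := by
  rw [lcs_eq_itc, lcs_eq_itc]; exact itc_mono h h n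

theorem lcs_map (f : N →* N') (X : Subgroup N) (n : ℕ) :
    (X.lowerCentralSeries n).map f = (X.map f).lowerCentralSeries n := by
  rw [lcs_eq_itc, lcs_eq_itc, itc_map]

theorem bdd_mono (h : X ≤ X') (h' : Bdd X') : Bdd X :=
  let ⟨n, hn, hx⟩ := h'; ⟨n, hn, fun x hx' => hx x (h hx')⟩

theorem bdd_map (f : N →* N') (h : Bdd X) : Bdd (X.map f) := by
  obtain ⟨n, hn, hx⟩ := h
  refine ⟨n, hn, ?_⟩
  rintro _ ⟨x, hx', rfl⟩
  rw [← map_pow, hx x hx', map_one]

theorem nz_of_normal (h : H.Normal) (z : N) : Nz z H := fun x hx =>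
  ⟨h.conj_mem x hx z, by simpa using h.conj_mem x hx z⁻¹⟩

theorem cm_iff : Cm X D ↔ ⁅X, D⁆ = ⊥ := by
  rw [eq_bot_iff, Subgroup.commutator_le]
  simp only [Cm, Subgroup.mem_bot, commutatorElement_eq_one_iff_mul_comm]

theorem map_mk_eq_bot [W.Normal] : X.map (QuotientGroup.mk' W) = ⊥ ↔ X ≤ W := by
  rw [Subgroup.map_eq_bot_iff, QuotientGroup.ker_mk']

theorem coVN_of_fi (h : D.Normal) (h' : D.FiniteIndex) : CoVN D := ⟨h, D, 0, h, h', le_rfl⟩

theorem fi_map (f : N →* N') (hf : Function.Surjective f) (h : D.FiniteIndex) :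
    (D.map f).FiniteIndex :=
  ⟨fun h0 => h.index_ne_zero (Nat.eq_zero_of_zero_dvd (h0 ▸ D.index_map_dvd hf))⟩

theorem fi_comap (f : N →* N') (hf : Function.Surjective f) {E : Subgroup N'}
    (h : E.FiniteIndex) : (E.comap f).FiniteIndex :=
  ⟨by rw [Subgroup.index_comap_of_surjective _ hf]; exact h.index_ne_zero⟩

end Grp

section Rep

variable {N A : Type} [Group N] [AddCommGroup A] {ρ : Representation ℤ N A}

@[simp] theorem wd_nil : wd ρ [] = 1 := rfl

theorem wd_cons (y : N) (l : List N) : wd ρ (y :: l) = (ρ y - 1) * wd ρ l := by simp [wd]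

theorem wd_append (l l' : List N) : wd ρ (l ++ l') = wd ρ l * wd ρ l' := by simp [wd]

theorem wd_conj (g : N) (l : List N) :
    ρ g * wd ρ l = wd ρ (l.map fun y => g * y * g⁻¹) * ρ g := by
  induction l with
  | nil => simp
  | cons y l ih =>
    rw [List.map_cons, wd_cons, wd_cons, mul_assoc, ← ih, ← mul_assoc, ← mul_assoc]
    congr 1
    simp [mul_sub, sub_mul, ← map_mul]

theorem kill_iff {m : ℤ} {S : Set N} {n : ℕ} : Kill ρ m S n ↔
    ∀ l : List N, l.length = n → (∀ y ∈ l, y ∈ S) → m • wd ρ l = 0 := Iff.rfl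

theorem kill_mono {m : ℤ} {S S' : Set N} {n : ℕ} (h : Kill ρ m S n) (hS : S' ⊆ S) :
    Kill ρ m S' n := fun l hl hy => h l hl fun y hy' => hS (hy y hy')

theorem kill_dvd {m m' : ℤ} {S : Set N} {n : ℕ} (h : Kill ρ m S n) (hm : m ∣ m') :
    Kill ρ m' S n := by
  obtain ⟨k, rfl⟩ := hm
  intro l hl hy
  rw [mul_comm, mul_smul, h l hl hy, smul_zero]

theorem kill_le {m : ℤ} {S : Set N} {n n' : ℕ} (h : Kill ρ m S n) (hn : n ≤ n') :
    Kill ρ m S n' := by
  rw [kill_iff] at h ⊢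
  intro l hl hy
  rw [← List.take_append_drop n l, wd_append, ← smul_mul_assoc,
    h _ (by simp; omega) fun y hy' => hy y (List.mem_of_mem_take hy'), zero_mul]

theorem tame_mono {Λ : Submonoid ℤ} {S S' : Set N} (h : Tame Λ ρ S) (hS : S' ⊆ S) :
    Tame Λ ρ S' :=
  let ⟨a, ha, t, ht⟩ := h; ⟨a, ha, t, kill_mono ht hS⟩

/-- the elements that act trivially on `m A` -/
def kr (ρ : Representation ℤ N A) (m : ℤ) : Subgroup N where
  carrier := {x | m • (ρ x - 1) = 0}
  one_mem' := by simp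
  mul_mem' := by
    intro x y hx hy
    have : ρ (x * y) - 1 = (ρ x - 1) * ρ y + (ρ y - 1) := by rw [map_mul]; noncomm_ring
    change m • _ = 0 at hx hy ⊢
    rw [this, smul_add, ← smul_mul_assoc, hx, hy, zero_mul, add_zero]
  inv_mem' := by
    intro x hx
    have : ρ x⁻¹ - 1 = -((ρ x - 1) * ρ x⁻¹) := by
      rw [sub_mul, ← map_mul, mul_inv_cancel, map_one]; simp
    change m • _ = 0 at hx ⊢
    rw [this, smul_neg, ← smul_mul_assoc, hx, zero_mul, neg_zero]

theorem mem_kr {m : ℤ} {x : N} : x ∈ kr ρ m ↔ m • (ρ x - 1) = 0 := Iff.rfl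

theorem kr_normal (ρ : Representation ℤ N A) (m : ℤ) : (kr ρ m).Normal := by
  refine ⟨fun x hx g => ?_⟩
  rw [mem_kr] at hx ⊢
  have : ρ (g * x * g⁻¹) - 1 = ρ g * (ρ x - 1) * ρ g⁻¹ := by
    simp [mul_sub, sub_mul, ← map_mul]
  rw [this, ← smul_mul_assoc, ← mul_smul_comm, hx, mul_zero, zero_mul]

theorem kill_one_iff {m : ℤ} {S : Set N} : Kill ρ m S 1 ↔ ∀ x ∈ S, x ∈ kr ρ m := by
  rw [kill_iff]
  constructor
  · intro h x hx
    have := h [x] rfl (by simpa using hx)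
    rwa [wd_cons, wd_nil, mul_one] at this
  · intro h l hl hy
    obtain ⟨x, rfl⟩ := List.length_eq_one_iff.1 hl
    rw [wd_cons, wd_nil, mul_one]
    exact h x (hy x (by simp))

theorem tame_bot (Λ : Submonoid ℤ) : Tame Λ ρ (⊥ : Subgroup N) :=
  ⟨1, Λ.one_mem, 1, kill_one_iff.2 fun x hx => by
    rw [SetLike.mem_coe, Subgroup.mem_bot] at hx; rw [hx]; exact (kr ρ 1).one_mem⟩

theorem aug_mono {D D' : Set N} {U U' : Set A} (h : D ⊆ D') (h' : U ⊆ U') (n : ℕ) :
    aug ρ D U n ≤ aug ρ D' U' n :=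
  Submodule.span_mono fun _ ⟨l, hl, hy, a, ha, hv⟩ => ⟨l, hl, fun y hy' => h (hy y hy'), a, h' ha, hv⟩

theorem wd_mem_aug {D : Set N} {U : Set A} {l : List N} (hy : ∀ y ∈ l, y ∈ D) {a : A}
    (ha : a ∈ U) : wd ρ l a ∈ aug ρ D U l.length :=
  Submodule.subset_span ⟨l, rfl, hy, a, ha, rfl⟩

theorem aug_step {D : Set N} {U : Set A} {n : ℕ} {d : N} (hd : d ∈ D) {v : A}
    (hv : v ∈ aug ρ D U n) : ρ d v - v ∈ aug ρ D U (n + 1) := by
  induction hv using Submodule.span_induction with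
  | mem v hv =>
    obtain ⟨l, rfl, hy, a, ha, rfl⟩ := hv
    have := wd_mem_aug (ρ := ρ) (l := d :: l) (D := D) (by simpa using ⟨hd, hy⟩) ha
    simpa [wd_cons] using this
  | zero => simp
  | add x y _ _ hx hy =>
    have := Submodule.add_mem _ hx hy
    rw [map_add]; convert this using 1; abel
  | smul c x _ hx =>
    have := Submodule.smul_mem _ c hx
    rwa [smul_sub, ← map_smul] at this

/-- identities pass to a representation that factors through a surjection -/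
theorem sat_of_surj {N' : Type} [Group N'] (π : N →* N') (hπ : Function.Surjective π)
    {ρ' : Representation ℤ N' A} (h : ∀ g, ρ' (π g) = ρ g) {u : FF →₀ ℤ} (hu : Sat u ρ) :
    Sat u ρ' := by
  intro φ
  choose s hs using hπ
  have hφ : ∀ w, φ w = π (FreeGroup.lift (fun i => s (φ (FreeGroup.of i))) w) := fun w =>
    DFunLike.congr_fun (FreeGroup.ext_hom φ (π.comp (FreeGroup.lift fun i => s (φ (.of i))))
      fun i => by simp [hs]) w
  rw [← hu (FreeGroup.lift fun i => s (φ (FreeGroup.of i)))]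
  exact Finsupp.sum_congr fun w _ => by rw [← h, ← hφ]

end Rep

section Sec

variable {N M : Type} [Group N] [AddCommGroup M] {σ : Representation ℤ N M} {f : N → M}
  {H H₀ : Subgroup N}

theorem IsSec.one (h : IsSec H H₀ σ f) : f 1 = 0 := (h.ker 1 H.one_mem).2 H₀.one_mem

theorem IsSec.inv (h : IsSec H H₀ σ f) {x : N} (hx : x ∈ H) : f x⁻¹ = - f x := by
  have := h.add x hx x⁻¹ (H.inv_mem hx)
  rw [mul_inv_cancel, h.one] at this
  exact (neg_eq_of_add_eq_zero_right this.symm).symm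

theorem IsSec.pow (h : IsSec H H₀ σ f) {x : N} (hx : x ∈ H) (n : ℕ) : f (x ^ n) = n • f x := by
  induction n with
  | zero => simp [h.one]
  | succ n ih => rw [pow_succ, h.add _ (H.pow_mem hx n) _ hx, ih, succ_nsmul]

theorem IsSec.eq_iff (h : IsSec H H₀ σ f) {x y : N} (hx : x ∈ H) (hy : y ∈ H) :
    f x = f y ↔ x * y⁻¹ ∈ H₀ := by
  rw [← h.ker _ (H.mul_mem hx (H.inv_mem hy)), h.add _ hx _ (H.inv_mem hy), h.inv hy,
    ← sub_eq_add_neg, sub_eq_zero]

theorem IsSec.inj (h : IsSec H ⊥ σ f) {x y : N} (hx : x ∈ H) (hy : y ∈ H) (hf : f x = f y) :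
    x = y := by
  have := (h.eq_iff hx hy).1 hf
  rwa [Subgroup.mem_bot, mul_inv_eq_one] at this

theorem IsSec.comm (h : IsSec H H₀ σ f) (hH : H.Normal) {x : N} (hx : x ∈ H) (d : N) :
    f ⁅x, d⁆ = f x - σ d (f x) := by
  have : ⁅x, d⁆ = x * (d * x⁻¹ * d⁻¹) := by simp [commutatorElement_def, mul_assoc]
  rw [this, h.add _ hx _ (hH.conj_mem _ (H.inv_mem hx) d), h.conj _ _ (H.inv_mem hx), h.inv hx,
    map_neg, sub_eq_add_neg]

theorem IsSec.sec (h : IsSec H H₀ σ f) (hH : H.Normal) : Sec σ :=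
  ⟨H, f, hH, h.add, h.surj, h.conj⟩

/-- the elements of `H` with image in a submodule -/
def IsSec.pre (h : IsSec H H₀ σ f) (U : Submodule ℤ M) : Subgroup N where
  carrier := {x | x ∈ H ∧ f x ∈ U}
  one_mem' := ⟨H.one_mem, by rw [h.one]; exact U.zero_mem⟩
  mul_mem' := fun hx hy => ⟨H.mul_mem hx.1 hy.1, by
    rw [h.add _ hx.1 _ hy.1]; exact U.add_mem hx.2 hy.2⟩
  inv_mem' := fun hx => ⟨H.inv_mem hx.1, by rw [h.inv hx.1]; exact U.neg_mem hx.2⟩

theorem IsSec.mem_pre (h : IsSec H H₀ σ f) {U : Submodule ℤ M} {x : N} :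
    x ∈ h.pre U ↔ x ∈ H ∧ f x ∈ U := Iff.rfl

/-- the image of a subgroup of `H` -/
def IsSec.img (h : IsSec H H₀ σ f) (X : Subgroup N) : Submodule ℤ M :=
  AddSubgroup.toIntSubmodule
    { carrier := {v | ∃ x ∈ X, x ∈ H ∧ f x = v}
      zero_mem' := ⟨1, X.one_mem, H.one_mem, h.one⟩
      add_mem' := by
        rintro _ _ ⟨x, hx, hx', rfl⟩ ⟨y, hy, hy', rfl⟩
        exact ⟨x * y, X.mul_mem hx hy, H.mul_mem hx' hy', h.add _ hx' _ hy'⟩
      neg_mem' := by
        rintro _ ⟨x, hx, hx', rfl⟩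
        exact ⟨x⁻¹, X.inv_mem hx, H.inv_mem hx', h.inv hx'⟩ }

theorem IsSec.mem_img (h : IsSec H H₀ σ f) {X : Subgroup N} {v : M} :
    v ∈ h.img X ↔ ∃ x ∈ X, x ∈ H ∧ f x = v := Iff.rfl

/-- an element of `H` with image in the image of `X` lies in `X H₀` -/
theorem IsSec.mem_sup (h : IsSec H H₀ σ f) {X : Subgroup N} {x : N} (hx : x ∈ H)
    (hf : f x ∈ h.img X) : x ∈ X ⊔ H₀ := by
  obtain ⟨y, hy, hy', he⟩ := hf
  have h1 := (h.eq_iff hx hy').1 he.symm
  have : x = x * y⁻¹ * y := by group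
  rw [this]
  exact Subgroup.mul_mem _ (Subgroup.mem_sup_right h1) (Subgroup.mem_sup_left hy)

/-- I1 -/
theorem IsSec.itc_aug (h : IsSec H H₀ σ f) (hH : H.Normal) {X : Subgroup N} (hX : X ≤ H)
    (D : Subgroup N) (n : ℕ) : ∀ x ∈ itc X D n, f x ∈ aug σ D (f '' X) n := by
  induction n with
  | zero => exact fun x hx => wd_mem_aug (ρ := σ) (l := []) (by simp) ⟨x, hx, rfl⟩
  | succ n ih =>
    have : itc X D (n + 1) ≤ h.pre (aug σ D (f '' X) (n + 1)) := by
      rw [itc_succ, Subgroup.commutator_le]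
      intro x hx d hd
      have hxH := itc_le hH hX D n hx
      refine ⟨itc_le hH hX D (n + 1) (Subgroup.commutator_mem_commutator hx hd), ?_⟩
      rw [h.comm hH hxH, ← neg_sub]
      exact Submodule.neg_mem _ (aug_step hd (ih x hx))
    exact fun x hx => (this hx).2

/-- I2 -/
theorem IsSec.wd_itc (h : IsSec H H₀ σ f) (hH : H.Normal) {X : Subgroup N} (hX : X ≤ H)
    {D : Subgroup N} (l : List N) (hl : ∀ d ∈ l, d ∈ D) {x : N} (hx : x ∈ X) :
    ∃ y ∈ itc X D l.length, f y = wd σ l (f x) := by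
  induction l with
  | nil => exact ⟨x, hx, rfl⟩
  | cons d l ih =>
    obtain ⟨y, hy, he⟩ := ih fun d hd => hl d (List.mem_cons_of_mem _ hd)
    have hc : ⁅y, d⁆ ∈ itc X D (l.length + 1) :=
      Subgroup.commutator_mem_commutator hy (hl d List.mem_cons_self)
    refine ⟨⁅y, d⁆⁻¹, Subgroup.inv_mem _ hc, ?_⟩
    rw [h.inv (itc_le hH hX D _ hc), h.comm hH (itc_le hH hX D _ hy), he, wd_cons]
    simp

end Sec

end Pool.Agent.MP_5c28a4_al.H89S.StrA
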