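import Pool.Agent.MP_5c28a4_al.H13S.Base

/-!
Claim T: induction on the class of the power subgroup.
-/

set_option autoImplicit false

namespace Pool.Agent.MP_5c28a4_al.H89S.StrA

open scoped commutatorElement

namespace TA

/-- the conclusion of claim T -/
def Con (Λ : Submonoid ℤ) {N A : Type} [Group N] [AddCommGroup A] (ρ : Representation ℤ N A)
    (K : Subgroup N) : Prop :=
  ∃ (K₁ : Subgroup N) (n : ℕ), K₁ ≤ K ∧ CoVN K₁ ∧ 0 < n ∧ Tame Λ ρ (pw K₁ n)

variable {Λ : Submonoid ℤ} {u : FF →₀ ℤ}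

section

variable {N A : Type} [Group N] [AddCommGroup A] {ρ : Representation ℤ N A} {K K' : Subgroup N}

theorem Con.mono (h : Con Λ ρ K') (hK : K' ≤ K) : Con Λ ρ K :=
  let ⟨K₁, n, h1, h2⟩ := h; ⟨K₁, n, h1.trans hK, h2⟩

theorem redc (bV : BVn) (hR : XRed) (Y : Subgroup N) [Y.Normal] (hY : Tame Λ ρ Y) (hu : Sat u ρ)
    (hK : CoVN K)
    (H : ∀ (A' : Type) [AddCommGroup A'] (ρ' : Representation ℤ (N ⧸ Y) A'), Sat u ρ' →
      Con Λ ρ' (K.map (QuotientGroup.mk' Y))) : Con Λ ρ K := by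
  obtain ⟨a, ha, t, hk⟩ := hY
  obtain ⟨A', _, ρ', h1, -, h3⟩ := hR N A ρ Y a t hk
  obtain ⟨K₁, n, -, hc, hn, b, hb, s, hs⟩ := H A' ρ' (h1 u hu)
  refine ⟨K ⊓ K₁.comap (QuotientGroup.mk' Y), n, inf_le_left,
    bV.inf _ _ _ hK (bV.comap _ _ _ _ hc), hn, a * b ^ t, Λ.mul_mem ha (Λ.pow_mem hb t), s * t,
    h3 _ _ _ (kill_mono hs ?_)⟩
  rw [← Subgroup.coe_map, pw_map, SetLike.coe_subset_coe]
  exact pw_mono ((Subgroup.map_mono inf_le_right).trans (Subgroup.map_comap_le _ _)) n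

end

theorem one (bV : BVn) (hC : XCom) (hA : XTA) (hI : IdP Λ u) (N A : Type) [Group N]
    [AddCommGroup A] (ρ : Representation ℤ N A) (K : Subgroup N) (c m : ℕ) (hf : Group.FG N)
    (hs : Group.IsSolvable N) (hu : Sat u ρ) (hK : CoVN K) (hb : Bdd (K.lowerCentralSeries c))
    (hm : 0 < m) (h : ⁅pw K m, pw K m⁆ = ⊥) : Con Λ ρ K := by
  have hP := pw_normal hK.1 m
  obtain ⟨m', D, v, hm', hD, hD', ht⟩ :=
    hA Λ u hI N A ρ K (pw K m) c hf hu hK hb hP (pw_le _ _) (cm_iff.2 h)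
  have hKD : CoVN (K ⊓ D) := bV.inf _ _ _ hK (coVN_of_fi hD hD')
  obtain ⟨n, hn, hx⟩ := hC.sh N (K ⊓ D) D (itc (pw (pw K m) m') D v) (m * m') v hs hKD.1 hD
    (itc_normal (pw_normal hP m') hD v) inf_le_right (Nat.mul_pos hm hm')
    (itc_mono ((pw_mono inf_le_left _).trans (pw_mul_le K m m')) le_rfl v)
  exact ⟨itc (K ⊓ D) D v, n, itc_le hK.1 inf_le_left D v, bV.itc _ _ _ v hKD hD hD', hn,
    tame_mono ht (pw_le_of hx)⟩

theorem st2 (bV : BVn) (hR : XRed) (hC : XCom) (hA : XTA) (h2 : XT2a) (hI : IdP Λ u) (v : ℕ) :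
    ∀ (N A : Type) [Group N] [AddCommGroup A] (ρ : Representation ℤ N A) (K D : Subgroup N)
    (c m : ℕ), Group.FG N → Group.IsSolvable N → Sat u ρ → CoVN K →
    Bdd (K.lowerCentralSeries c) → 0 < m → (pw K m).lowerCentralSeries 2 = ⊥ → D.Normal →
    D.FiniteIndex → itc ⁅pw K m, pw K m⁆ D v = ⊥ → Con Λ ρ K := by
  induction v with
  | zero =>
    intro N A _ _ ρ K D c m hf hs hu hK hb hm _ _ _ h
    exact one bV hC hA hI N A ρ K c m hf hs hu hK hb hm h
  | succ v ih =>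
    intro N A _ _ ρ K D c m hf hs hu hK hb hm hl hD hD' h
    obtain ⟨K₁, m₁, hle, hK₁, hm₁, hP, ht⟩ := h2 Λ u hI N A ρ K D c m v hf hs hu hK hb hm hl hD hD' h
    have hP₁ := pw_normal hK₁.1 m₁
    have : (itc ⁅pw K₁ m₁, pw K₁ m₁⁆ D v).Normal :=
      itc_normal (Subgroup.commutator_normal _ _) hD v
    have hsur := QuotientGroup.mk'_surjective (itc ⁅pw K₁ m₁, pw K₁ m₁⁆ D v)
    refine (redc bV hR _ ht hu hK₁ fun A' _ ρ' hu' => ?_).mono hle
    refine ih _ A' ρ' _ (D.map (QuotientGroup.mk' _)) c m₁ (Group.fg_of_surjective hsur)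
      inferInstance hu' (bV.map _ _ _ _ hsur hK₁) ?_ hm₁ ?_ (hD.map _ hsur) (fi_map _ hsur hD') ?_
    · rw [← lcs_map]; exact bdd_map _ (bdd_mono (lcs_mono hle c) hb)
    · rw [← pw_map, ← lcs_map, eq_bot_iff.2 ((lcs_mono hP 2).trans hl.le), Subgroup.map_bot]
    · rw [← pw_map, ← Subgroup.map_commutator, ← itc_map, map_mk_eq_bot]

theorem two (bV : BVn) (bC : BCom) (hR : XRed) (hC : XCom) (hA : XTA) (h2 : XT2a) (hI : IdP Λ u)
    (N A : Type) [Group N] [AddCommGroup A] (ρ : Representation ℤ N A) (K : Subgroup N) (c m : ℕ)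
    (hf : Group.FG N) (hs : Group.IsSolvable N) (hu : Sat u ρ) (hK : CoVN K)
    (hb : Bdd (K.lowerCentralSeries c)) (hm : 0 < m) (h : (pw K m).lowerCentralSeries 2 = ⊥) :
    Con Λ ρ K := by
  have hP := pw_normal hK.1 m
  have hB := lcs_normal hP 1
  have hBP : (pw K m).lowerCentralSeries 1 ≤ pw K m := by
    rw [lcs_eq_itc]; exact itc_le hP le_rfl _ _
  obtain ⟨m', D, v, hm', hD, hD', ht⟩ :=
    hA Λ u hI N A ρ K ((pw K m).lowerCentralSeries 1) c hf hu hK hb hB (hBP.trans (pw_le _ _))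
      (cm_iff.2 (eq_bot_iff.2 ((Subgroup.commutator_mono le_rfl hBP).trans h.le)))
  have : (itc (pw ((pw K m).lowerCentralSeries 1) m') D v).Normal :=
    itc_normal (pw_normal hB m') hD v
  have hsur := QuotientGroup.mk'_surjective (itc (pw ((pw K m).lowerCentralSeries 1) m') D v)
  refine redc bV hR _ ht hu hK fun A' _ ρ' hu' => ?_
  refine st2 bV hR hC hA h2 hI v _ A' ρ' _ (D.map (QuotientGroup.mk' _)) c (m * m')
    (Group.fg_of_surjective hsur) inferInstance hu' (bV.map _ _ _ _ hsur hK) ?_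
    (Nat.mul_pos hm hm') ?_ (hD.map _ hsur) (fi_map _ hsur hD') ?_
  · rw [← lcs_map]; exact bdd_map _ hb
  · rw [← pw_map, ← lcs_map,
      eq_bot_iff.2 ((lcs_mono (pw_dvd K (dvd_mul_right m m')) 2).trans h.le), Subgroup.map_bot]
  · rw [← pw_map, ← Subgroup.map_commutator, ← itc_map, map_mk_eq_bot]
    refine itc_mono ?_ le_rfl v
    refine (lcs_mono (pw_mul_le K m m') 1).trans ((bC.top N (pw K m) 1 m').trans ?_)
    rw [mu, h, sup_bot_eq]
    exact pw_dvd _ (dvd_pow_self m' (by norm_num))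

end TA

theorem xt (bV : BVn) (bC : BCom) (hR : XRed) (hC : XCom) (hA : XTA) (h3 : XG3) (h2 : XT2a) :
    XT := by
  intro Λ u hI d
  induction d using Nat.strong_induction_on with
  | _ d ih =>
  intro N A _ _ ρ K c m hf hs hu hK hb hm h
  rcases d with _ | _ | _ | d
  · refine ⟨K, m, le_rfl, hK, hm, ?_⟩
    rw [show pw K m = ⊥ from h]
    exact tame_bot Λ
  · exact TA.one bV hC hA hI N A ρ K c m hf hs hu hK hb hm h
  · exact TA.two bV bC hR hC hA h2 hI N A ρ K c m hf hs hu hK hb hm h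
  · have hP := pw_normal hK.1 m
    have hB := lcs_normal hP (d + 1)
    have hBP : (pw K m).lowerCentralSeries (d + 1) ≤ pw K m := by
      rw [lcs_eq_itc]; exact itc_le hP le_rfl _ _
    have hBB : ⁅(pw K m).lowerCentralSeries (d + 1), (pw K m).lowerCentralSeries (d + 1)⁆ = ⊥ := by
      refine eq_bot_iff.2 ((bC.add N _ _ _).trans ?_)
      rw [show d + 1 + (d + 1) + 1 = (d + 1 + 1 + 1) + d by ring, lcs_add, h, itc_bot]
    obtain ⟨m', D, v, hm', hD, hD', ht⟩ :=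
      hA Λ u hI N A ρ K _ c hf hu hK hb hB (hBP.trans (pw_le _ _)) (cm_iff.2 hBB)
    have : (itc (pw ((pw K m).lowerCentralSeries (d + 1)) m') D v).Normal :=
      itc_normal (pw_normal hB m') hD v
    have hsur :=
      QuotientGroup.mk'_surjective (itc (pw ((pw K m).lowerCentralSeries (d + 1)) m') D v)
    refine TA.redc bV hR _ ht hu hK fun A' _ ρ' hu' => ?_
    obtain ⟨K₁, m₁, hle, hK₁, hm₁, hl⟩ := h3 _ (K.map (QuotientGroup.mk' _))
      (D.map (QuotientGroup.mk' _)) m m' d v (bV.map _ _ _ _ hsur hK) (hD.map _ hsur)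
      (fi_map _ hsur hD') hm hm' (by rw [← pw_map, ← lcs_map, h, Subgroup.map_bot])
      (by rw [← pw_map, ← lcs_map, ← pw_map, ← itc_map, map_mk_eq_bot])
    refine TA.Con.mono (ih (d + 2) (by omega) _ A' ρ' K₁ c m₁ (Group.fg_of_surjective hsur)
      inferInstance hu' hK₁ ?_ hm₁ hl) hle
    refine bdd_mono (lcs_mono hle c) ?_
    rw [← lcs_map]; exact bdd_map _ hb

end Pool.Agent.MP_5c28a4_al.H89S.StrA
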