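import Pool.Agent.MP_5c28a4_al.H13S.Base
import Pool.Agent.MP_5c28a4_al.H89S.Sh

/-!
Commutators and powers.
-/

set_option autoImplicit false

namespace Pool.Agent.MP_5c28a4_al.H89S.StrA

open scoped commutatorElement

namespace ComA

variable {N : Type} [Group N]

theorem fin_bot {P D : Subgroup N} {n : ℕ} (h1 : ⁅⁅P, D⁆, D⁆ = ⊥) (h2 : ∀ x ∈ ⁅P, D⁆, x ^ n = 1) :
    ⁅P, pw D n⁆ = ⊥ := by
  rw [← cm_iff] at h1 ⊢
  intro p hp x hx
  have key : ∀ d ∈ D, ∀ k : ℕ, ⁅p, d ^ k⁆ = ⁅p, d⁆ ^ k := by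
    intro d hd k
    induction k with
    | zero => simp
    | succ k ih =>
      have hc := h1 _ (Subgroup.commutator_mem_commutator hp hd) _ (D.pow_mem hd k)
      calc ⁅p, d ^ (k + 1)⁆ = ⁅p, d ^ k⁆ * (d ^ k * ⁅p, d⁆) * (d ^ k)⁻¹ := by
            rw [pow_succ]; simp [commutatorElement_def, mul_assoc]
        _ = ⁅p, d⁆ ^ (k + 1) := by rw [← hc, ih, pow_succ ⁅p, d⁆]; simp [mul_assoc]
  have : pw D n ≤ Subgroup.centralizer {p} := pw_le_of fun d hd => by
    rw [Subgroup.mem_centralizer_singleton_iff, eq_comm,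
      ← commutatorElement_eq_one_iff_mul_comm, key d hd,
      h2 _ (Subgroup.commutator_mem_commutator hp hd)]
  exact (Subgroup.mem_centralizer_singleton_iff.1 (this hx)).symm

end ComA

theorem com : XCom where
  e1 := fun _ _ _ _ _ _ _ _ _ h1 h2 _ hx => ShA.key h1 h2 hx
  fin := by
    intro N _ P D W n _ _ hW h1 h2
    rw [← map_mk_eq_bot, Subgroup.map_commutator, pw_map]
    apply ComA.fin_bot
    · rw [← Subgroup.map_commutator, ← Subgroup.map_commutator, map_mk_eq_bot]; exact h1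
    · rw [← Subgroup.map_commutator]
      rintro _ ⟨x, hx, rfl⟩
      rw [← map_pow, ← MonoidHom.mem_ker, QuotientGroup.ker_mk']
      exact h2 x hx
  sh := fun N _ Y D W M v hs _ _ _ hY hM h => sh N hs D Y W hY M v hM h

end Pool.Agent.MP_5c28a4_al.H89S.StrA
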