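import Pool.Agent.MP_5c28a4_al.H89S.Spec

/-!
Notions and statements for the structure theorem `SStr`
(plan file `MP_5c28a4_H13_S2.md` in the team store).
-/

set_option autoImplicit false

namespace Pool.Agent.MP_5c28a4_al.H89S.StrA

open scoped commutatorElement Polynomial

section Defs

variable {N A : Type} [Group N] [AddCommGroup A]

/-- the product `(y₁ - 1) ⋯ (yₙ - 1)` -/
def wd (σ : Representation ℤ N A) (l : List N) : Module.End ℤ A :=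
  (l.map fun y => σ y - 1).prod

/-- `ω(D) ^ n U` -/
def aug (σ : Representation ℤ N A) (D : Set N) (U : Set A) (n : ℕ) : Submodule ℤ A :=
  Submodule.span ℤ {v | ∃ l : List N, l.length = n ∧ (∀ y ∈ l, y ∈ D) ∧ ∃ a ∈ U, v = wd σ l a}

/-- `S` acts nilpotently on a multiple `a A`, `a` in `Λ` -/
def Tame (Λ : Submonoid ℤ) (ρ : Representation ℤ N A) (S : Set N) : Prop :=
  ∃ a ∈ Λ, ∃ t : ℕ, Kill ρ a S t

/-- `σ` is the section `H / H₀` with the action by conjugation -/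
structure IsSec (H H₀ : Subgroup N) (σ : Representation ℤ N A) (f : N → A) : Prop where
  add : AddOn H f
  surj : ∀ a, ∃ x ∈ H, f x = a
  conj : ∀ g, ∀ x ∈ H, f (g * x * g⁻¹) = σ g (f x)
  ker : ∀ x ∈ H, f x = 0 ↔ x ∈ H₀

/-- value of a Laurent polynomial at `z` -/
noncomputable def lev (σ : Representation ℤ N A) (z : N) (h : ℤ →₀ ℤ) : Module.End ℤ A :=
  h.sum fun a c => c • σ (z ^ a)

/-- the elements of `H` that are values of all words `w k` modulo `H₀` -/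
def cov (H H₀ : Subgroup N) {r : ℕ} (w : Fin r → FreeGroup ℤ) (z : N) : Set N :=
  {x | x ∈ H ∧ ∀ k, ∃ c ∈ H, x * (evz c z (w k))⁻¹ ∈ H₀}

end Defs

/-- the integers prime to `p` -/
def npr (p : ℕ) (hp : p.Prime) : Submonoid ℤ where
  carrier := {a | ¬ (p : ℤ) ∣ a}
  one_mem' := fun h => hp.one_lt.ne' (by exact_mod_cast Int.eq_one_of_dvd_one (by positivity) h)
  mul_mem' := fun ha hb h => ((Nat.prime_iff_prime_int.1 hp).dvd_or_dvd h).elim ha hb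

/-- the package of identities -/
def IdP (Λ : Submonoid ℤ) (u : FF →₀ ℤ) : Prop :=
  ∃ (r : ℕ) (w : Fin r → FreeGroup ℤ) (a : ℤ) (n : ℕ), (∀ k, ab (w k) ≠ 0) ∧ a ∈ Λ ∧ 0 < n ∧
  ∀ (N A : Type) [Group N] [AddCommGroup A] (ρ : Representation ℤ N A), Sat u ρ →
    (∀ (B : Subgroup N) (z : N) (y : Fin r → N), Cm B B → Nz z B → (∀ k, y k ∈ B) →
      a • wd ρ (List.ofFn fun k => evz (y k) z (w k)) = 0) ∧
    ∀ (P : Subgroup N) (z y : N) (c : Fin r → N), P.lowerCentralSeries 2 = ⊥ → Nz z P → y ∈ P →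
      (∀ k, c k ∈ P) → a • wd ρ (List.ofFn fun k => ⁅c k, evz y z (w k)⁆ ^ n) = 0

/-! ### tools -/

/-- reduction modulo a normal subgroup that acts nilpotently -/
def XRed : Prop := ∀ (N A : Type) [Group N] [AddCommGroup A] (ρ : Representation ℤ N A)
  (Y : Subgroup N) [Y.Normal] (m : ℤ) (t : ℕ), Kill ρ m Y t →
  ∃ (A' : Type) (_ : AddCommGroup A') (ρ' : Representation ℤ (N ⧸ Y) A'),
    (∀ u, Sat u ρ → Sat u ρ') ∧
    (∀ (a : ℤ) (S : Set N) (n : ℕ), Kill ρ a S n → Kill ρ' a (QuotientGroup.mk' Y '' S) n) ∧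
    ∀ (a : ℤ) (S : Set N) (n : ℕ), Kill ρ' a (QuotientGroup.mk' Y '' S) n →
      Kill ρ (m * a ^ t) S (n * t)

/-- abelian normal sections exist as modules -/
def XSec : Prop := ∀ (N : Type) [Group N] (H H₀ : Subgroup N), H.Normal → H₀.Normal → H₀ ≤ H →
  ⁅H, H⁆ ≤ H₀ → ∃ (M : Type) (_ : AddCommGroup M) (σ : Representation ℤ N M) (f : N → M),
    IsSec H H₀ σ f

/-- words in generators are enough -/
def XFin : Prop := ∀ (N A : Type) [Group N] [AddCommGroup A] (ρ : Representation ℤ N A)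
  (T : Set N) (U : Submodule ℤ A) (n : ℕ), (∀ d ∈ Subgroup.closure T, ∀ a ∈ U, ρ d a ∈ U) →
  aug ρ (Subgroup.closure T) U n ≤ aug ρ T U n

/-- commuting elements -/
structure XSum : Prop where
  bridge : ∀ (N A : Type) [Group N] [AddCommGroup A] (ρ : Representation ℤ N A) (B : Subgroup N),
    Cm B B → ∃ (R : Type) (_ : CommRing R) (ψ : R →+* Module.End ℤ A) (e : N → R),
      Function.Injective ψ ∧ ∀ b ∈ B, ψ (e b) = ρ b
  sum : ∀ (Λ : Submonoid ℤ) (N A : Type) [Group N] [AddCommGroup A] (ρ : Representation ℤ N A)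
    (B : Subgroup N) (ι : Type) [Finite ι] (S : ι → Set N), Cm B B → (∀ i, S i ⊆ B) →
    (∀ i, Tame Λ ρ (S i)) → Tame Λ ρ (Subgroup.closure (⋃ i, S i))
  ord : ∀ (N A : Type) [Group N] [AddCommGroup A] (ρ : Representation ℤ N A) (x : N) (e n : ℕ)
    (m : ℤ), x ^ e = 1 → Kill ρ m {x} n → (m * (e : ℤ) ^ n) • (ρ x - 1) = 0

/-- commutators and powers -/
structure XCom : Prop where
  e1 : ∀ (N : Type) [Group N] (Y D W : Subgroup N) (M : ℕ), Y.Normal → D.Normal → W.Normal →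
    ⁅⁅Y, D⁆, Y⁆ ≤ W → (∀ y ∈ Y, ∀ d ∈ D, ⁅y ^ M, d⁆ ∈ W) → ∀ x ∈ ⁅Y, D⁆, x ^ M ∈ W
  fin : ∀ (N : Type) [Group N] (P D W : Subgroup N) (n : ℕ), P.Normal → D.Normal → W.Normal →
    ⁅⁅P, D⁆, D⁆ ≤ W → (∀ x ∈ ⁅P, D⁆, x ^ n ∈ W) → ⁅P, pw D n⁆ ≤ W
  sh : ∀ (N : Type) [Group N] (Y D W : Subgroup N) (M v : ℕ), Group.IsSolvable N → Y.Normal →
    D.Normal → W.Normal → Y ≤ D → 0 < M → itc (pw Y M) D v ≤ W →
    ∃ n : ℕ, 0 < n ∧ ∀ x ∈ itc Y D v, x ^ n ∈ W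

/-- finitely many conjugacy classes generate a power of `P / P'` -/
def XGen : Prop := ∀ (N : Type) [Group N] (K D : Subgroup N) (c m : ℕ), Group.FG N → CoVN K →
  Bdd (K.lowerCentralSeries c) → 0 < m → D.Normal → D.FiniteIndex →
  ∃ (M : ℕ) (T : Finset N), 0 < M ∧ (∀ t ∈ T, t ∈ pw K m) ∧ ∀ x ∈ pw K m,
    x ^ M ∈ Subgroup.closure {x | ∃ d ∈ D, ∃ t ∈ T, x = d * t * d⁻¹} ⊔ ⁅pw K m, pw K m⁆

/-- words and polynomials -/
structure XWord : Prop where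
  poly : ∀ (r : ℕ) (w : Fin r → FreeGroup ℤ), (∀ k, ab (w k) ≠ 0) → ∃ g : ℤ[X], g ≠ 0 ∧
    ∀ (N M : Type) [Group N] [AddCommGroup M] (σ : Representation ℤ N M) (z : N) (k : Fin r),
      LinearMap.range (Polynomial.aeval (σ z) g) ≤ LinearMap.range (lev σ z (ab (w k)))
  val : ∀ (N M : Type) [Group N] [AddCommGroup M] (σ : Representation ℤ N M) (f : N → M)
    (H H₀ : Subgroup N), H.Normal → IsSec H H₀ σ f → ∀ (z : N) (w : FreeGroup ℤ), ∀ y ∈ H,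
      f (evz y z w) = lev σ z (ab w) (f y)

/-! ### identities -/

def XPcr : Prop := ∀ (p : ℕ) (hp : p.Prime) (u : FF →₀ ℤ), Good p u → IdP (npr p hp) u

/-! ### the annihilator lemma -/

def XPoly : Prop := ∀ g : ℤ[X], g ≠ 0 → ∃ (m : ℤ) (k L e : ℕ), m ≠ 0 ∧ 0 < L ∧
  Polynomial.C m * Polynomial.X ^ k * (Polynomial.X ^ L - 1) ^ e ∈
    Ideal.span {h : ℤ[X] | ∃ j : ℕ, 0 < j ∧ h = Polynomial.expand ℤ j g}

def XUnip : Prop := ∀ (N A : Type) [Group N] [AddCommGroup A] (ρ : Representation ℤ N A)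
  (K : Subgroup N) (m : ℤ) (L e : ℕ), Group.FG N → CoVN K → Tame (nonZeroDivisors ℤ) ρ K →
  m ≠ 0 → 0 < L → (∀ z : N, Kill ρ m {z ^ L} e) →
  ∃ D : Subgroup N, D.Normal ∧ D.FiniteIndex ∧ Tame (nonZeroDivisors ℤ) ρ D

def XAl : Prop := ∀ (N M : Type) [Group N] [AddCommGroup M] (σ : Representation ℤ N M)
  (K D₀ : Subgroup N) (g : ℤ[X]), Group.FG N → CoVN K → Tame (nonZeroDivisors ℤ) σ K →
  D₀.Normal → D₀.FiniteIndex → g ≠ 0 →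
  ∃ (m : ℕ) (D : Subgroup N) (n : ℕ) (S : Finset N), 0 < m ∧ D.Normal ∧ D.FiniteIndex ∧
    (∀ z ∈ S, z ∈ D₀) ∧
    aug σ D {v | ∃ x, v = m • x} n ≤ ⨆ z ∈ S, LinearMap.range (Polynomial.aeval (σ z) g)

/-- group form -/
def XAlg : Prop := ∀ (N : Type) [Group N] (K H H₀ D₀ : Subgroup N) (c r : ℕ)
  (w : Fin r → FreeGroup ℤ), Group.FG N → CoVN K → Bdd (K.lowerCentralSeries c) → H.Normal →
  H₀.Normal → H₀ ≤ H → ⁅H, H⁆ ≤ H₀ → H ≤ K → D₀.Normal → D₀.FiniteIndex → (∀ k, ab (w k) ≠ 0) →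
  ∃ (m : ℕ) (D : Subgroup N) (n : ℕ) (S : Finset N), 0 < m ∧ D.Normal ∧ D.FiniteIndex ∧
    (∀ z ∈ S, z ∈ D₀) ∧ itc (pw H m) D n ≤ Subgroup.closure (⋃ z ∈ S, cov H H₀ w z) ⊔ H₀

/-! ### the uniformity lemma -/

def XUni : Prop := ∀ (N A M : Type) [Group N] [AddCommGroup A] [AddCommGroup M]
  (ρ : Representation ℤ N A) (τ : Representation ℤ N M) (f : N → M) (B D : Subgroup N)
  (F : ℕ → Submodule ℤ M) (a : ℤ) (r v : ℕ) (W : Fin r → Set N) (W' : Set M),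
  B.Normal → Cm B B → IsSec B ⊥ τ f → F 0 = ⊥ →
  (∀ j, ∀ d ∈ D, ∀ x ∈ F (j + 1), τ d x - x ∈ F j) →
  (∀ k, ∀ x ∈ W k, x ∈ B ∧ f x ∈ F (v + 1)) →
  (∀ y : Fin r → N, (∀ k, y k ∈ W k) → a • wd ρ (List.ofFn y) = 0) →
  (∀ k, ∀ y ∈ W', ∃ x ∈ W k, y - f x ∈ F v) →
  ∀ l : List N, l.length = v → (∀ d ∈ l, d ∈ D) → ∃ (j n : ℕ), 0 < j ∧
    Kill ρ a {x | x ∈ B ∧ ∃ y ∈ W', f x = j • wd τ l y} n

/-! ### claim T -/

def XTA : Prop := ∀ (Λ : Submonoid ℤ) (u : FF →₀ ℤ), IdP Λ u →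
  ∀ (N A : Type) [Group N] [AddCommGroup A] (ρ : Representation ℤ N A) (K B : Subgroup N) (c : ℕ),
  Group.FG N → Sat u ρ → CoVN K → Bdd (K.lowerCentralSeries c) → B.Normal → B ≤ K → Cm B B →
  ∃ (m : ℕ) (D : Subgroup N) (v : ℕ), 0 < m ∧ D.Normal ∧ D.FiniteIndex ∧
    Tame Λ ρ (itc (pw B m) D v)

/-- lowering the class, class at least three -/
def XG3 : Prop := ∀ (N : Type) [Group N] (K D : Subgroup N) (m m' d v : ℕ), CoVN K → D.Normal →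
  D.FiniteIndex → 0 < m → 0 < m' → (pw K m).lowerCentralSeries (d + 3) = ⊥ →
  itc (pw ((pw K m).lowerCentralSeries (d + 1)) m') D v = ⊥ →
  ∃ (K₁ : Subgroup N) (m₁ : ℕ), K₁ ≤ K ∧ CoVN K₁ ∧ 0 < m₁ ∧
    (pw K₁ m₁).lowerCentralSeries (d + 2) = ⊥

/-- class two, the core -/
def XT2b : Prop := ∀ (Λ : Submonoid ℤ) (N A : Type) [Group N] [AddCommGroup A]
  (ρ : Representation ℤ N A) (r : ℕ) (w : Fin r → FreeGroup ℤ) (a : ℤ) (n : ℕ)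
  (P P₁ D : Subgroup N) (v M : ℕ) (T S : Finset N), a ∈ Λ → 0 < n → P.Normal →
  P.lowerCentralSeries 2 = ⊥ →
  (∀ (z y : N) (c : Fin r → N), y ∈ P → (∀ k, c k ∈ P) →
    a • wd ρ (List.ofFn fun k => ⁅c k, evz y z (w k)⁆ ^ n) = 0) →
  D.Normal → D.FG → itc ⁅P, P⁆ D (v + 1) = ⊥ → (∀ t ∈ T, t ∈ P) → 0 < M →
  (∀ x ∈ P, x ^ M ∈ Subgroup.closure {x | ∃ d ∈ D, ∃ t ∈ T, x = d * t * d⁻¹} ⊔ ⁅P, P⁆) →
  (∀ z ∈ S, z ∈ D) → P₁.Normal → P₁ ≤ P →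
  P₁ ≤ Subgroup.closure (⋃ z ∈ S, cov P ⁅P, P⁆ w z) ⊔ ⁅P, P⁆ →
  ∃ j : ℕ, 0 < j ∧ Tame Λ ρ (itc ⁅pw P₁ j, pw P₁ j⁆ D v)

/-- class two, one step -/
def XT2a : Prop := ∀ (Λ : Submonoid ℤ) (u : FF →₀ ℤ), IdP Λ u →
  ∀ (N A : Type) [Group N] [AddCommGroup A] (ρ : Representation ℤ N A) (K D : Subgroup N)
  (c m v : ℕ), Group.FG N → Group.IsSolvable N → Sat u ρ → CoVN K →
  Bdd (K.lowerCentralSeries c) → 0 < m → (pw K m).lowerCentralSeries 2 = ⊥ → D.Normal →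
  D.FiniteIndex → itc ⁅pw K m, pw K m⁆ D (v + 1) = ⊥ →
  ∃ (K₁ : Subgroup N) (m₁ : ℕ), K₁ ≤ K ∧ CoVN K₁ ∧ 0 < m₁ ∧ pw K₁ m₁ ≤ pw K m ∧
    Tame Λ ρ (itc ⁅pw K₁ m₁, pw K₁ m₁⁆ D v)

def XT : Prop := ∀ (Λ : Submonoid ℤ) (u : FF →₀ ℤ), IdP Λ u → ∀ (d : ℕ)
  (N A : Type) [Group N] [AddCommGroup A] (ρ : Representation ℤ N A) (K : Subgroup N) (c m : ℕ),
  Group.FG N → Group.IsSolvable N → Sat u ρ → CoVN K → Bdd (K.lowerCentralSeries c) → 0 < m →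
  (pw K m).lowerCentralSeries d = ⊥ →
  ∃ (K₁ : Subgroup N) (n : ℕ), K₁ ≤ K ∧ CoVN K₁ ∧ 0 < n ∧ Tame Λ ρ (pw K₁ n)

/-! ### normal subgroups of finite exponent -/

/-- abelian case -/
def XU2 : Prop := ∀ u : ℕ → FF →₀ ℤ, (∀ p : ℕ, p.Prime → Good p (u p)) →
  ∀ (N A : Type) [Group N] [AddCommGroup A] (ρ : Representation ℤ N A) (X : Subgroup N),
  Group.FG N → Group.IsSolvable N → (∀ p : ℕ, p.Prime → Sat (u p) ρ) → X.Normal → Bdd X →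
  Cm X X → ∃ (m : ℤ) (D : Subgroup N), m ≠ 0 ∧ D.Normal ∧ D.FiniteIndex ∧
    Kill ρ m (⁅X, D⁆ : Subgroup N) 1

def XTow : Prop := ∀ u : ℕ → FF →₀ ℤ, (∀ p : ℕ, p.Prime → Good p (u p)) →
  ∀ (N A : Type) [Group N] [AddCommGroup A] (ρ : Representation ℤ N A) (X : Subgroup N),
  Group.FG N → Group.IsSolvable N → (∀ p : ℕ, p.Prime → Sat (u p) ρ) → X.Normal → Bdd X →
  ∃ (m : ℤ) (D : Subgroup N), m ≠ 0 ∧ D.Normal ∧ D.FiniteIndex ∧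
    Kill ρ m (⁅X, D⁆ : Subgroup N) 1

/-! ### the action on the module -/

/-- nilpotent action on a multiple of the module -/
def XNila : Prop := ∀ u : ℕ → FF →₀ ℤ, (∀ p : ℕ, p.Prime → Good p (u p)) →
  ∀ (N A : Type) [Group N] [AddCommGroup A] (ρ : Representation ℤ N A) (K : Subgroup N)
  (c m d : ℕ), Group.FG N → Group.IsSolvable N → (∀ p : ℕ, p.Prime → Sat (u p) ρ) → CoVN K →
  Bdd (K.lowerCentralSeries c) → 0 < m → (pw K m).lowerCentralSeries d = ⊥ →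
  ∃ (K₁ : Subgroup N) (m₀ t : ℕ), CoVN K₁ ∧ 0 < m₀ ∧ Kill ρ m₀ K₁ t

/-- nilpotent action of a power subgroup modulo a multiple of the module -/
def XLay : Prop := ∀ u : ℕ → FF →₀ ℤ, (∀ p : ℕ, p.Prime → Good p (u p)) →
  ∀ (N A : Type) [Group N] [AddCommGroup A] (ρ : Representation ℤ N A) (K : Subgroup N)
  (c m d m₀ : ℕ), Group.FG N → Group.IsSolvable N → (∀ p : ℕ, p.Prime → Sat (u p) ρ) → CoVN K →
  Bdd (K.lowerCentralSeries c) → 0 < m → (pw K m).lowerCentralSeries d = ⊥ → 0 < m₀ →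
  ∃ (K₁ : Subgroup N) (n t : ℕ), CoVN K₁ ∧ 0 < n ∧ ∀ l : List N, l.length = t →
    (∀ y ∈ l, y ∈ pw K₁ n) → ∀ x : A, ∃ x' : A, wd ρ l x = m₀ • x'

end Pool.Agent.MP_5c28a4_al.H89S.StrA
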