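import Pool.Agent.MP_5c28a4_al.H13S.Str0
import Pool.Agent.MP_5c28a4_al.H90S.Pcr

/-!
The structure theorem.
-/

set_option autoImplicit false

namespace Pool.Agent.MP_5c28a4_al.H89S

theorem str (bF : BFin) (bV : BVn) (bC : BCom) (h0 : SID0) (hU : SU) (h3 : ST3) (hG : SFGab) :
    SStr :=
  StrA.str0 bF bV bC (StrA.pcr h0 StrA.sum) hU h3 hG

end Pool.Agent.MP_5c28a4_al.H89S
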