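import Pool.Agent.MP_5c28a4_al.H13S.Com
import Pool.Agent.MP_5c28a4_al.H13S.ClaimT
import Pool.Agent.MP_5c28a4_al.H13S.Asm
import Pool.Agent.MP_5c28a4_al.H35S.Red
import Pool.Agent.MP_5c28a4_al.H51S.SecFin
import Pool.Agent.MP_5c28a4_al.H21S.Sum
import Pool.Agent.MP_5c28a4_al.H88S.Gen
import Pool.Agent.MP_5c28a4_al.H84S.Word
import Pool.Agent.MP_5c28a4_al.H81S.Unip
import Pool.Agent.MP_5c28a4_al.H70S.Al
import Pool.Agent.MP_5c28a4_al.H9S.Alg
import Pool.Agent.MP_5c28a4_al.H60S.Uni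
import Pool.Agent.MP_5c28a4_al.H85S.T2b
import Pool.Agent.MP_5c28a4_al.H3S.T2a
import Pool.Agent.MP_5c28a4_al.H76S.U2
import Pool.Agent.MP_5c28a4_al.H89S.Tow
import Pool.Agent.MP_5c28a4_al.H86S.Nl

/-!
The structure theorem from the package of identities.
-/

set_option autoImplicit false

namespace Pool.Agent.MP_5c28a4_al.H89S.StrA

theorem str0 (bF : BFin) (bV : BVn) (bC : BCom) (hP : XPcr) (hU : SU) (h3 : ST3) (hG : SFGab) :
    SStr := by
  have hAlg : XAlg := alg sec word (al fin poly (unip bV red sum))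
  have hT : XT := xt bV bC red com (ta sum hAlg) (g3 bV bC sec com)
    (t2a bV com (gen hG com) hAlg (t2b bC sec fin sum (uni sum)))
  have hTow : XTow := tow bF h3 red sum com (u2 bF hU red sum com)
  exact asm bV sec com (nila bV red hP hT hTow) (lay bV hP hT)

end Pool.Agent.MP_5c28a4_al.H89S.StrA
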